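import Pool.Agent.Helper228.CkInt.O
import Pool.Agent.Helper228.CkInt.T

open scoped ENNReal Topology
open MeasureTheory Filter Set
open Pool.Agent.Helper228.CkInt

namespace Pool.Agent.Results.MP_935800_an.DomainIndependence

/-- sanity: the open unit cube, and every bounded convex `D` of volume `1`, is admissible -/
theorem admissible_of_convex {d : ℕ} (hd : 1 ≤ d) {D : Set (Fin d → ℝ)} (hc : Convex ℝ D)
    (hb : Bornology.IsBounded D) (hv : volume D = 1) : UnitJordan D ∧ InteriorCone D := by
  have h1 : volume (frontier D) = 0 := hc.addHaar_frontier volume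
  refine ⟨⟨hb, h1, hv⟩, interiorCone_of_convex hd hc hb ?_⟩
  rw [Set.nonempty_iff_ne_empty]
  intro h
  have := volume_interior h1 hv
  rw [h] at this
  simp at this

theorem unitJordan_cube {d : ℕ} : UnitJordan (cube d) :=
  ⟨cube_bounded d, cube_frontier d, volume_cube d⟩

/-- Domain independence of the asymptotic constant for `C^k` integration, and its failure for
irregular domains. -/
theorem result (d k : ℕ) (hd : 1 ≤ d) (hk : 1 ≤ k) :
    (∃ C : ℝ, 0 < C ∧
      (∀ D : Set (Fin d → ℝ), UnitJordan D → InteriorCone D →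
        Tendsto (scaledError k D) atTop (𝓝 C)) ∧
      (∀ D : Set (Fin d → ℝ), UnitJordan D → ∀ c < C, ∀ᶠ n in atTop, c < scaledError k D n)) ∧
    (∃ D : Set (Fin d → ℝ), UnitJordan D ∧ IsOpen D ∧ (2 ≤ d → IsConnected D) ∧
      Tendsto (scaledError k D) atTop atTop) := by
  have hC : 0 < C0 d k :=
    C0_pos_of hd hk (cube_bounded d) (cube_frontier d) (volume_cube d) (interiorCone_cube hd)
  refine ⟨⟨C0 d k, hC, fun D hD hcone => main_limit hd hk hD.1 hD.2.1 hD.2.2 hcone hC,
    fun D hD c hc => main_lower hd hk hD.1 hD.2.1 hD.2.2 hC hc⟩, ?_⟩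
  rcases Nat.lt_or_ge 1 d with h2 | h2
  · exact ⟨_, ⟨(cube_bounded d).subset (comb_sub_cube ⟨0, hd⟩ ⟨1, h2⟩ (1/(2*d))),
      comb_frontier _ _ (by positivity), comb_volume _ _ _⟩, comb_open _ _ (by positivity),
      fun _ => comb_connected (by simp) _, comb_top (by simp) hk⟩
  · exact ⟨_, ⟨(cube_bounded d).subset (fun x hx => hx.1 : slit d ⟨0, hd⟩ (1/(2*d)) ⊆ cube d),
      slit_frontier _ (by positivity), slit_volume _ _⟩, slit_open _ (by positivity),
      fun h => by omega, slit_top _ hk⟩

end Pool.Agent.Results.MP_935800_an.DomainIndependence
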